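import Pool.Agent.Lib.MP_45349e_nt.LS.LamB

/-!
# TT.A.Gd: the set of the patterns for prescribed classes

`PtT`: the pattern; `gset`: the numbers with the pattern in prescribed classes modulo the powers `p ^ r` of the primes `p < p0`; `GCore`: the lower bound
for their number (proved in `TT.A.Core`). This module is small: the applications need only it.
-/

set_option autoImplicit false

open Finset

namespace Pool.Agent.Lib.TTA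

open Pool.Agent.Lib.MP_45349e_nt.LS (lam)

/-- the missing pattern -/
def PtT (h : ℤ) (s u : ℝ) (n : ℕ) : Prop := lam n = s ∧ lam ((n : ℤ) - h).toNat = u

open Classical in
/-- the `1 ≤ a ≤ x` with `λ(a) = s`, `λ(a - h) = u`, `a` free of primes `≤ (log x) ^ A`, `a - h` free of primes `≤ x ^ δ`, all `a + g` free of primes
`p0 ≤ p ≤ x ^ δ`, `a` in the classes `np` modulo the powers `p ^ r` of the primes `p < p0` -/
noncomputable def gset (h : ℤ) (G : Finset ℤ) (np : ℕ → ℕ) (r A p0 : ℕ) (δ s u : ℝ) (x : ℕ) : Finset ℕ :=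
  (Icc 1 x).filter fun a => PtT h s u a ∧ (∀ p : ℕ, p.Prime → p ∣ a → (Real.log x) ^ A < p) ∧
    (0 < (a : ℤ) - h ∧ ∀ p : ℕ, p.Prime → (p : ℤ) ∣ (a : ℤ) - h → (x : ℝ) ^ δ < p) ∧
    (∀ g ∈ G, 0 < (a : ℤ) + g ∧ ∀ p : ℕ, p.Prime → p0 ≤ p → (p : ℤ) ∣ (a : ℤ) + g → (x : ℝ) ^ δ < p) ∧
    ∀ p : ℕ, p.Prime → p < p0 → a ≡ np p [MOD p ^ r]

/-- the lower bound for the number of the patterns -/
def GCore : Prop := ∀ (h : ℤ), h ≠ 0 → ∀ (G : Finset ℤ), (∀ g ∈ G, g ≠ 0 ∧ h + g ≠ 0) → ∀ r : ℕ, 1 ≤ r → ∀ (np : ℕ → ℕ),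
  (∀ p : ℕ, p.Prime → ¬ p ∣ np p ∧ ¬ (p : ℤ) ∣ np p - h) → ∀ (P1 A : ℕ),
  ∃ p0 : ℕ, P1 ≤ p0 ∧ ∀ ε : ℝ, 0 < ε → ε ≤ 1 → ∃ δ : ℝ, 0 < δ ∧ ∃ x0 : ℕ, ∀ x : ℕ, x0 ≤ x → ∀ s u : ℝ, (s = 1 ∨ s = -1) → (u = 1 ∨ u = -1) →
    (x : ℝ) ^ (1 - ε) ≤ ((gset h G np r A p0 δ s u x).card : ℝ)

end Pool.Agent.Lib.TTA
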