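import Pool.Agent.Lib.MP_092512_nt.TT.A.Sc
import Pool.Agent.Lib.MP_092512_nt.TT.S.Bs
import Pool.Agent.Lib.MP_092512_nt.TT.S.Br
import Pool.Agent.Lib.MP_092512_nt.TT.S.Mk
import Pool.Agent.Lib.MP_092512_nt.TT.D.Ap
import Pool.Agent.Lib.MP_092512_nt.TT.Fin

/-!
# TT.A.Core: the lower bound for the number of the patterns

Choice of all constants; the concrete system of S/ satisfies the hypotheses of the frame (`TT.frame`), which is a contradiction if a pattern is rare.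
-/

set_option autoImplicit false

open Finset Filter

namespace Pool.Agent.Lib.TTA

open Pool.Agent.Lib
open Pool.Agent.Lib.TC (MPar Wp Wp_pos Wp_pr Wp_sq)
open Pool.Agent.Lib.TC.MPar
open Pool.Agent.Lib.TTS
open Pool.Agent.Lib.TTD (wD Brg4 Exps4)

/-- `exp (K / (log K) ^ 2) ≤ ⌊N ^ δ⌋` -/
theorem z_lo {δ : ℝ} (hδ : 0 < δ) : ∀ᶠ N : ℕ in atTop, Real.exp (Real.log N / (Real.log (Real.log N)) ^ 2) ≤ ⌊(N : ℝ) ^ δ⌋₊ := by
  have h1 : Tendsto (fun N : ℕ => Real.log N) atTop atTop := Real.tendsto_log_atTop.comp tendsto_natCast_atTop_atTop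
  have h2 : Tendsto (fun N : ℕ => Real.log (Real.log N)) atTop atTop := Real.tendsto_log_atTop.comp h1
  have h3 : Tendsto (fun N : ℕ => (Real.log (Real.log N)) ^ 2) atTop atTop := (tendsto_pow_atTop two_ne_zero).comp h2
  filter_upwards [h1.eventually_ge_atTop (2 / δ), h3.eventually_ge_atTop (2 / δ), eventually_ge_atTop 1] with N h4 h5 hN
  have hN0 : (0 : ℝ) < N := by exact_mod_cast hN
  have hd : 0 < 2 / δ := by positivity
  have hK : 0 < Real.log N := lt_of_lt_of_le hd h4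
  have h6 : Real.log N / (Real.log (Real.log N)) ^ 2 ≤ δ / 2 * Real.log N := by
    rw [div_le_iff₀ (lt_of_lt_of_le hd h5)]
    have h7 : 1 ≤ δ / 2 * (Real.log (Real.log N)) ^ 2 := by
      rw [div_le_iff₀ hδ] at h5
      linarith
    nlinarith
  have h8 : (2 : ℝ) ≤ Real.exp (δ / 2 * Real.log N) := by
    have h9 : 1 ≤ δ / 2 * Real.log N := by
      rw [div_le_iff₀ hδ] at h4
      linarith
    have := Real.add_one_le_exp (δ / 2 * Real.log N)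
    linarith
  have h10 : (N : ℝ) ^ δ = Real.exp (δ / 2 * Real.log N) * Real.exp (δ / 2 * Real.log N) := by
    rw [← Real.exp_add, Real.rpow_def_of_pos hN0]
    congr 1
    ring
  have h11 : (N : ℝ) ^ δ < ⌊(N : ℝ) ^ δ⌋₊ + 1 := Nat.lt_floor_add_one _
  have h12 : Real.exp (Real.log N / (Real.log (Real.log N)) ^ 2) ≤ Real.exp (δ / 2 * Real.log N) := Real.exp_le_exp.2 h6
  nlinarith

theorem eps_K {K : ℝ} (hK : 0 < K) (n : ℕ) : 0 ≤ 1 / K ^ n ∧ 1 / K ^ n * K ^ n ≤ 1 := by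
  have h1 : 0 < K ^ n := pow_pos hK n
  refine ⟨by positivity, ?_⟩
  rw [one_div, inv_mul_cancel₀ h1.ne']

/-- **the lower bound for the number of the patterns** -/
theorem gcore : GCore := by
  intro h hh0' G hG0 r hr np hnp0 P1 A
  obtain ⟨p1, hp1⟩ := shf_of h hh0' G hG0 np hnp0
  obtain ⟨g, hg⟩ : ∃ g : ℕ, g = G.card := ⟨_, rfl⟩
  obtain ⟨C1, hC1⟩ : ∃ C : ℕ, C = A + 300 := ⟨_, rfl⟩
  obtain ⟨k0, hk0⟩ := ev_PDT g 404 (5 * C1 + 300)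
  obtain ⟨k, hk⟩ : ∃ k : ℕ, k = 2 * (k0 + 4 * 420 + 5) + 1 := ⟨_, rfl⟩
  have hkodd : Odd k := ⟨k0 + 4 * 420 + 5, hk⟩
  obtain ⟨F, hF⟩ : ∃ F : ℕ, F = FF h G k := ⟨_, rfl⟩
  have hFlo : k + 1 ≤ F := by
    rw [hF]
    exact FF_lo h G k
  obtain ⟨p0, hp0⟩ : ∃ p : ℕ, p = 64 * ((k + 1) * (2 * g + 1)) ^ 2 + (64 * (k + 1) ^ 2 + 64) + (p1 + P1) := ⟨_, rfl⟩
  refine ⟨p0, by omega, fun ε hε hε1 => ?_⟩
  obtain ⟨b, hb1, hb2⟩ := Wp_clr p0 r hr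
  obtain ⟨Cf', hCf'⟩ : ∃ C : ℕ, C = (mkr k 1 p0 r 1 b).Cf3 := ⟨_, rfl⟩
  obtain ⟨Cf, hCf⟩ : ∃ C : ℕ, C = Cf' + 4 * (k + 1) + 4 * C1 + 60 := ⟨_, rfl⟩
  obtain ⟨CD, hCD⟩ : ∃ C : ℕ, C = Cf + C1 + 240 := ⟨_, rfl⟩
  obtain ⟨Cp, hCp⟩ : ∃ C : ℕ, C = CD + 24 * F + 404 + 41 := ⟨_, rfl⟩
  obtain ⟨W0, hW0d⟩ : ∃ W : ℕ, W = Wp p0 := ⟨_, rfl⟩
  obtain ⟨W, hW⟩ : ∃ W : ℕ, W = W0 ^ r := ⟨_, rfl⟩
  have hnp := hp1 p0 (by omega)
  have hh0 : h ≠ 0 := hnp.h_ne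
  have hh1 : 0 < h.natAbs := Int.natAbs_pos.2 hh0
  have hW0 : 0 < W := by
    rw [hW, hW0d]
    exact pow_pos (Wp_pos p0) r
  have hWr : (1 : ℝ) ≤ W := by exact_mod_cast hW0
  have hW0pr : ∀ p : ℕ, p.Prime → (p ∣ W0 ↔ p < p0) := by
    intro p hp
    rw [hW0d]
    exact Wp_pr p0 hp
  have hWpr : ∀ p : ℕ, p.Prime → (p ∣ W ↔ p < p0) := by
    intro p hp
    rw [hW]
    exact ⟨fun h1 => (hW0pr p hp).1 (hp.dvd_of_dvd_pow h1), fun h1 => ((hW0pr p hp).2 h1).trans (dvd_pow_self _ (by omega))⟩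
  have hWsq : Squarefree W0 := by
    rw [hW0d]
    exact Wp_sq p0
  have hp02 : 2 < p0 := by
    rw [hp0]
    have := Nat.zero_le (64 * ((k + 1) * (2 * g + 1)) ^ 2)
    have := Nat.zero_le (64 * (k + 1) ^ 2)
    omega
  have hW2 : 2 ∣ W := (hWpr 2 Nat.prime_two).2 hp02
  have hR0 : 0 < W ^ 2 * h.natAbs := Nat.mul_pos (pow_pos hW0 2) hh1
  have hR2 : 2 ∣ W ^ 2 * h.natAbs := Dvd.dvd.mul_right (hW2.trans (dvd_pow_self W two_ne_zero)) _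
  obtain ⟨d0, hd0⟩ : ∃ d : ℝ, d = min (1 / 100) (ε / 64) := ⟨_, rfl⟩
  have hd0p : 0 < d0 := by
    rw [hd0]
    exact lt_min (by norm_num) (by positivity)
  have hd0a : d0 ≤ 1 / 100 := by
    rw [hd0]
    exact min_le_left _ _
  have hd0b : d0 ≤ ε / 64 := by
    rw [hd0]
    exact min_le_right _ _
  clear hd0
  obtain ⟨P, hPd⟩ : ∃ P : TT.Par, P = ⟨W ^ 2 * h.natAbs, W ^ 2 * h.natAbs, decide (0 < h), C1, Cf, Cp, d0⟩ := ⟨_, rfl⟩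
  have hPq : P.q = W ^ 2 * h.natAbs := by rw [hPd]
  have hPR : P.R = W ^ 2 * h.natAbs := by rw [hPd]
  have hPs : P.s = true ↔ 0 < h := by
    rw [hPd]
    exact decide_eq_true_iff
  have hPC1 : P.C1 = C1 := by rw [hPd]
  have hPCf : P.Cf = Cf := by rw [hPd]
  have hPCp : P.Cp = Cp := by rw [hPd]
  have hPd0 : P.d0 = d0 := by rw [hPd]
  clear hPd
  have hP : P.Ok := by
    refine ⟨?_, ?_, ?_, ?_, ?_, ?_, ?_, ?_, ?_⟩
    · rw [hPq]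
      exact Nat.le_of_dvd hR0 hR2
    · rw [hPq]
      exact hR2
    · intro p _ hp
      rw [hPq] at hp
      rw [hPR]
      exact hp
    · rw [hPC1]
      omega
    · rw [hPC1, hPCf]
      omega
    · rw [hPCf]
      omega
    · rw [hPCf, hPC1, hPCp]
      omega
    · rw [hPd0]
      exact hd0p
    · rw [hPd0]
      linarith
  have hE : Exps4 P.d0 (1 / 400) (1 / 8) (ε / 64) 1 (ε / 4) := by
    rw [hPd0]
    exact ⟨hd0p, by norm_num, by norm_num, by positivity, one_pos, by linarith, by linarith⟩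
  obtain ⟨A', B', δz', hδz', N0, hpl⟩ := TT3.pair_lem3 k F 404 CD Cp Cf' W (2 * (W : ℝ) ^ 2) (1 / 400) (1 / 8) 1 (by omega) hFlo (by omega)
    (by nlinarith) (by norm_num) (by norm_num) (by norm_num)
  obtain ⟨e1, he1⟩ : ∃ e : ℝ, e = d0 / (2048 * ((k : ℝ) + 1)) := ⟨_, rfl⟩
  have hk1 : (0 : ℝ) < (k : ℝ) + 1 := by positivity
  have he1p : 0 < e1 := by
    rw [he1]
    positivity
  have he1k : ((k : ℝ) + 1) * e1 = d0 / 2048 := by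
    rw [he1]
    field_simp
  clear he1
  have hmul : ∀ c : ℝ, c * ((k : ℝ) + 1) * e1 = c * (d0 / 2048) := by
    intro c
    rw [mul_assoc, he1k]
  have b80 : 80 * ((k : ℝ) + 1) * e1 ≤ 1 := by
    rw [hmul]
    linarith
  have b8 : 8 * ((k : ℝ) + 1) * e1 ≤ 1 / 8 / 32 := by
    rw [hmul]
    linarith
  have b8' : 8 * ((k : ℝ) + 1) * e1 ≤ ε / 64 := by
    rw [hmul]
    linarith
  have b30 : 30 * ((k : ℝ) + 1) * e1 ≤ ε / 2 := by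
    rw [hmul]
    linarith
  have b9 : 8 * (9 * ((k : ℝ) + 1) * e1) ≤ ε := by
    rw [hmul]
    linarith
  have b4 : 4 * ((k : ℝ) + 1) * e1 ≤ d0 / 100 := by
    rw [hmul]
    linarith
  obtain ⟨Q, hQd⟩ : ∃ Q : MPar, Q = mkr k Cp p0 r e1 b := ⟨_, rfl⟩
  have hQ : Q.Ok := by
    rw [hQd]
    exact mkr_ok p0 r hkodd (by omega) (by omega) he1p b80 hr hb1 hb2
  have hQk : Q.k = k := by rw [hQd]; rfl
  have hQb : Q.b = b := by rw [hQd]; rfl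
  have hQW : Q.W = W := by rw [hQd, hW, hW0d]; rfl
  have hQC : Q.Cp = Cp := by rw [hQd]; rfl
  have hQe : Q.e1 = e1 := by rw [hQd]; rfl
  have hQf : Q.Cf3 = Cf' := by rw [hQd, hCf']; rfl
  clear hQd hCf'
  have hbnd : 64 * ((k + 1) * (2 * g + 1)) ^ 2 ≤ p0 := by
    rw [hp0]
    have := Nat.zero_le (64 * (k + 1) ^ 2)
    omega
  have hbnd2 : 64 * (k + 1) ^ 2 + 64 ≤ p0 := by
    rw [hp0]
    have := Nat.zero_le (64 * ((k + 1) * (2 * g + 1)) ^ 2)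
    omega
  have hgk : 16 * (2 * g + 1) * (k + 1) ≥ 4 * (k + 1) := Nat.mul_le_mul_right _ (by omega)
  have hPD := hk0 Q p0 W0 r hQ (by omega) (by omega) hr (by rw [hQW, hW]) (by rw [hQb, hW0d]; exact hb2) hW0pr hWsq (by rw [hQk]; exact hbnd) (A + 1) C1 CD
    (by omega) (by omega) (by omega) (by omega) (by rw [hQf, hQk]; omega) A' B' (1 / 8) δz' (by norm_num) (by rw [hQk, hQe]; exact b8)
  have hbs := ev_bs hQ P hP (by omega) p0 (by rw [hQk]; exact hbnd2) (by rw [hQW]; exact fun p hp => (hWpr p hp).1)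
    (by rw [hQf, hQk, hPC1, hPCf]; omega) h G hh0 (fun g hg => (hnp.G_ne g hg).2)
  have hexb := ev_exb hQ (ε := ε / 2) (by rw [hQk, hQe]; exact b30)
  obtain ⟨N2, hfr⟩ := TT.frame P hP
  obtain ⟨N3, hap⟩ := TTD.ap_thm P hP (by rw [hPd0]; exact hd0a) W0 W hW0 hW2 h hh0 hPs hPR (by rw [hPq, hPR]) hE
  obtain ⟨δz, hδzd⟩ : ∃ d : ℝ, d = min δz' (e1 / 3) := ⟨_, rfl⟩
  have hδz : 0 < δz := by
    rw [hδzd]
    exact lt_min hδz' (by positivity)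
  have hδza : δz ≤ δz' := by
    rw [hδzd]
    exact min_le_left _ _
  have hδzb : δz ≤ e1 / 3 := by
    rw [hδzd]
    exact min_le_right _ _
  clear hδzd
  refine of_scale h G np r p0 A ε δz (9 * ((Q.k : ℝ) + 1) * Q.e1) (by rw [hQk, hQe]; positivity) (by rw [hQk, hQe]; exact b9) hε1 hδz
    (fun N => datT Q N h G np r (W0 ^ (r - 1)) 0 (A + 1) p0 1 ⌊(N : ℝ) ^ δz⌋₊ 1) (fun N => MB Q N) (fun N => ⟨rfl, rfl, rfl, rfl, rfl, rfl, rfl⟩)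
    (fun N => ?_) ?_
  · have h1 : (MB Q N : ℝ) ≤ (N : ℝ) ^ (1 + 9 * ((Q.k : ℝ) + 1) * Q.e1) := Nat.floor_le (by positivity)
    exact h1
  have hKN : ∀ᶠ N : ℕ in atTop, (Real.log N) ^ CD ≤ N := by
    filter_upwards [Pool.Agent.Lib.RH.ev_log_pow CD 1 one_pos 1 one_pos] with N h2
    rwa [one_mul, Real.rpow_one] at h2
  filter_upwards [ev_Lg3 hQ, hPD, hbs, hexb, z_lo hδz, eventually_ge_atTop N0, eventually_ge_atTop N2, eventually_ge_atTop N3, hKN,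
    Pool.Agent.Lib.RH.ev_log_ge 1, eventually_ge_atTop 1] with N hL g2 g3 g4 g5 g6 g7 g8 g9 g10 g11 s u hs hu hex
  have hN1 : (1 : ℝ) ≤ N := by exact_mod_cast g11
  have hK0 : 0 < Real.log N := by linarith
  obtain ⟨z, hz⟩ : ∃ z : ℕ, z = ⌊(N : ℝ) ^ δz⌋₊ := ⟨_, rfl⟩
  rw [← hz] at g5 hex
  have hzN : (z : ℝ) ≤ (N : ℝ) ^ δz := by
    rw [hz]
    exact Nat.floor_le (by positivity)
  have hza : (z : ℝ) ≤ (N : ℝ) ^ δz' := hzN.trans (Real.rpow_le_rpow_of_exponent_le hN1 hδza)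
  have hzb : (z : ℝ) ≤ (N : ℝ) ^ (Q.e1 / 3) := by
    rw [hQe]
    exact hzN.trans (Real.rpow_le_rpow_of_exponent_le hN1 hδzb)
  have hctx : TT.Ctx P (fdT Q N) := by
    obtain ⟨f1, f2⟩ := fam_ok hQ hL P (by rw [hQf, hPCf]; omega) (by rw [hQk, hQe, hPd0]; exact b4)
    refine ⟨?_, f1, f2⟩
    show Q.y0 N = ⌊(Real.log N) ^ P.Cp⌋₊
    rw [hPCp, ← hQC]
    rfl
  obtain ⟨y1, hy1⟩ : ∃ y1 : ℕ, y1 = ⌈Real.log N⌉₊ := ⟨_, rfl⟩
  have hy1a : Real.log N ≤ y1 := by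
    rw [hy1]
    exact Nat.le_ceil _
  have hy1b : (y1 : ℝ) ≤ 2 * Real.log N := by
    rw [hy1]
    have := Nat.ceil_lt_add_one hK0.le
    linarith
  clear hy1
  refine hfr (fdT Q N) g7 hctx (fun l t t' => BdT (sysT Q N) (datT Q N h G np r (W0 ^ (r - 1)) 0 (A + 1) p0 l z 1) y1 t t') fun l hl => ⟨?_, ?_⟩
  · refine hap (sysT Q N) (datT Q N h G np r (W0 ^ (r - 1)) 0 (A + 1) p0 l z 1) (fdT Q N) y1
      (fun l t t' => BdT (sysT Q N) (datT Q N h G np r (W0 ^ (r - 1)) 0 (A + 1) p0 l z 1) y1 t t') (1 / (Real.log N) ^ 404) s u g8 rfl ?_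
    have hDh : ∀ D' : ℕ, 0 < D' → ((W ^ 2 * D' * h.natAbs : ℕ) : ℝ) ≤ (Real.log N) ^ (P.Cf + P.C1 + 240) →
        0 < W ^ 2 * D' ∧ ((W ^ 2 * D' : ℕ) : ℝ) ≤ (Real.log N) ^ CD ∧ W ^ 2 * D' * h.natAbs ≤ N := by
      intro D' hD0 hD1
      rw [hPCf, hPC1, ← hCD] at hD1
      refine ⟨Nat.mul_pos (pow_pos hW0 2) hD0, le_trans ?_ hD1, ?_⟩
      · exact_mod_cast Nat.le_mul_of_pos_right _ hh1
      · exact_mod_cast hD1.trans g9
    refine ⟨hW, hctx, hl, rfl, rfl, sets4 hQ hL, fam4 hQ hL, ?_, par4 hQ hL _ rfl, fun μ hμ ν hν hb => ⟨μ, hμ, ν, hν, rfl, rfl, hb⟩, ?_, ?_, ?_, ?_,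
      ?_, ?_⟩
    · intro μ hμ ν hν
      refine (sizeXY hQ hL hμ hν).trans (Real.rpow_le_rpow_of_exponent_le hN1 ?_)
      rw [hQk, hQe]
      exact b8'
    · rcases hs with rfl | rfl <;> norm_num
    · rcases hu with rfl | rfl <;> norm_num
    · exact (eps_K hK0 404).1
    · exact (eps_K hK0 404).2
    · intro D' yc hD0 hyc hlD hD1
      obtain ⟨a1, a2, a3⟩ := hDh D' hD0 hD1
      have hyc0 : yc.Coprime W0 := hyc.coprime_dvd_right (hW ▸ dvd_pow_self W0 (by omega))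
      have hl' : l = 1 ∨ (l.Prime ∧ (Real.log N) ^ C1 < l ∧ (l : ℝ) ≤ 4 * (Real.log N) ^ C1 ∧ ¬ l ∣ W ^ 2 * D') := by
        rcases hl with h1 | ⟨h1, h2, h3, h4⟩
        · exact Or.inl h1
        · rcases hlD with h5 | h5
          · exact Or.inl h5
          · rw [hPC1] at h2 h3
            exact Or.inr ⟨h1, h2, h3, h5⟩
      obtain ⟨q1, hpd⟩ := g2 hL h G np (le_of_eq hg.symm) hnp yc l z (W ^ 2 * D') y1 hyc0 hl' g5 hza hzb a1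
        (by rw [hW, ← pow_mul, mul_comm r 2]; exact Dvd.intro _ rfl) a2 hy1a
      rw [hQk, ← hF, hQC, hQf, hQW] at hpd
      exact hpl (sysT Q N) (datT Q N h G np r (W0 ^ (r - 1)) yc (A + 1) p0 l z (W ^ 2 * D')) W0 _ q1 _ _ _ hpd.pd3 g6
    · intro D' yc hD0 hlD hD1
      obtain ⟨a1, a2, a3⟩ := hDh D' hD0 hD1
      have h1 := g4 hL (wD (datT Q N h G np r (W0 ^ (r - 1)) 0 (A + 1) p0 l z 1) (W ^ 2 * D') yc) rfl a1 a3 (PtT h s u) (2 * N) le_rfl hex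
      have h2 : 1 - ε / 2 / 2 = 1 - ε / 4 := by ring
      rw [h2] at h1
      exact h1
  · intro v hv1 hv2
    exact g3 hL hctx y1 hy1b (fun l => datT Q N h G np r (W0 ^ (r - 1)) 0 (A + 1) p0 l z 1) (fun l => ⟨rfl, rfl, rfl, rfl⟩) l hl v hv1 hv2

/-- **the lower bound for the number of the patterns of two members of a tuple** -/
theorem core {m : ℕ} (t : Fin m → ℕ) (ht : Function.Injective t) (had : ∀ p : ℕ, p.Prime → ∃ r : ℕ, ∀ i, ¬ p ∣ r + t i)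
    (i j : Fin m) (hij : i ≠ j) (A : ℕ) (ε : ℝ) (hε : 0 < ε) (hε1 : ε ≤ 1) :
    ∃ δ : ℝ, 0 < δ ∧ ∃ x0 : ℕ, ∀ x : ℕ, x0 ≤ x → ∀ s u : ℝ, (s = 1 ∨ s = -1) → (u = 1 ∨ u = -1) →
      (x : ℝ) ^ (1 - ε) ≤ ((fset t i j A δ s u x).card : ℝ) := by
  obtain ⟨np, h1, h2, h3, h4⟩ := shf_tup t ht had i j hij
  obtain ⟨p0, -, hg⟩ := gcore ((t i : ℤ) - t j) h1 (GT t i j) h2 1 le_rfl np h3 0 A
  obtain ⟨δ, hδ, x0, hx0⟩ := hg (ε / 2) (by positivity) (by linarith)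
  have hp1 : Tendsto (fun N : ℕ => (N : ℝ) ^ (ε / 2)) atTop atTop := (tendsto_rpow_atTop (by positivity)).comp tendsto_natCast_atTop_atTop
  obtain ⟨x1, hx1⟩ := eventually_atTop.1 (hp1.eventually_ge_atTop ((t i : ℝ) + 2))
  refine ⟨δ, hδ, max x0 (max x1 1), fun x hx s u hs hu => ?_⟩
  rw [max_le_iff, max_le_iff] at hx
  have e1 := hx0 x hx.1 s u hs hu
  have e2 := hx1 x hx.2.1
  have e3 : ((gset ((t i : ℤ) - t j) (GT t i j) np 1 A p0 δ s u x).card : ℝ) ≤ (fset t i j A δ s u x).card + ((t i : ℝ) + 1) := by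
    exact_mod_cast gset_card t i j np h4 le_rfl A p0 δ s u x
  have hx1r : (1 : ℝ) ≤ x := by exact_mod_cast hx.2.2
  have e4 : (x : ℝ) ^ (1 - ε / 2) = (x : ℝ) ^ (ε / 2) * (x : ℝ) ^ (1 - ε) := by
    rw [← Real.rpow_add (by linarith)]
    congr 1
    ring
  have e5 : 1 ≤ (x : ℝ) ^ (1 - ε) := Real.one_le_rpow hx1r (by linarith)
  rw [e4] at e1
  have e6 : ((t i : ℝ) + 2) * (x : ℝ) ^ (1 - ε) ≤ (x : ℝ) ^ (ε / 2) * (x : ℝ) ^ (1 - ε) :=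
    mul_le_mul_of_nonneg_right e2 (by linarith)
  have e7 : (t i : ℝ) + 1 ≤ ((t i : ℝ) + 1) * (x : ℝ) ^ (1 - ε) := le_mul_of_one_le_right (by positivity) e5
  linarith

end Pool.Agent.Lib.TTA
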