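import Pool.Agent.Lib.MP_092512_nt.TT.S.X2
import Pool.Agent.Lib.MP_092512_nt.TT.S.Dt
import Pool.Agent.Lib.MP_092512_nt.TT.A.Gd

/-!
# TT.A.Ex: the exceptional set of the pair part and the set of theorem TT4

`fset t i j A δ s u x`: the `n ≤ x` with the missing pattern. `gset` (module `Gd`): the same for prescribed classes. `exs_card`: the numbers `a` of the pair part.
-/

set_option autoImplicit false

open Finset Filter

namespace Pool.Agent.Lib.TTA

open Pool.Agent.Lib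
open Pool.Agent.Lib.TTS (EXs)
open Pool.Agent.Lib.MP_45349e_nt.LS (lam)

open Classical in
/-- the `1 ≤ n ≤ x` with `λ(n + t i) = s`, `λ(n + t j) = u`, `n + t i` free of primes `≤ (log x) ^ A`, all other `n + t l` free of primes `≤ x ^ δ` -/
noncomputable def fset {m : ℕ} (t : Fin m → ℕ) (i j : Fin m) (A : ℕ) (δ s u : ℝ) (x : ℕ) : Finset ℕ :=
  (Icc 1 x).filter fun n => lam (n + t i) = s ∧ lam (n + t j) = u ∧ (∀ p : ℕ, p.Prime → p ∣ n + t i → (Real.log x) ^ A < p) ∧
    ∀ l, l ≠ i → ∀ p : ℕ, p.Prime → p ∣ n + t l → (x : ℝ) ^ δ < p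

/-- the further shifts -/
def GT {m : ℕ} (t : Fin m → ℕ) (i j : Fin m) : Finset ℤ := (univ.filter fun l => l ≠ i ∧ l ≠ j).image fun l => (t l : ℤ) - t i

theorem exs_card (h : ℤ) (G : Finset ℤ) (np : ℕ → ℕ) (r p0 : ℕ) (T : TTC.Dat) (hh : T.h = h) (hG : T.G = G) (hn : T.np = np) (hr : T.r = r) (hp0 : T.p0 = p0)
    (A : ℕ) (δ s u : ℝ) (x M : ℕ) (hM : M ≤ x) (hy : ∀ p : ℕ, T.y < p → (Real.log x) ^ A < p)
    (hz : ∀ p : ℕ, T.z < p → (x : ℝ) ^ δ < p) :
    (EXs T (PtT h s u) M).card ≤ (gset h G np r A p0 δ s u x).card := by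
  classical
  subst hh hG hn hr hp0
  refine card_le_card fun a ha => ?_
  unfold EXs at ha
  rw [mem_filter, mem_range] at ha
  obtain ⟨h1, ⟨h2, h3, ⟨h4, h5⟩, h6, h6'⟩, h7⟩ := ha
  unfold gset
  rw [mem_filter, mem_Icc]
  refine ⟨⟨by omega, by omega⟩, h7, ?_, ⟨h4, ?_⟩, ?_, h6'⟩
  · intro p hp hd
    refine hy p ?_
    by_contra h10
    exact h3 p hp (not_lt.1 h10) hd
  · intro p hp hd
    refine hz p ?_
    by_contra h10
    exact h5 p hp (not_lt.1 h10) hd
  · intro g hg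
    refine ⟨(h6 g hg).1, fun p hp hge hd => hz p ?_⟩
    by_contra h10
    exact (h6 g hg).2 p hp hge (not_lt.1 h10) hd

theorem gset_card {m : ℕ} (t : Fin m → ℕ) (i j : Fin m) (np : ℕ → ℕ) (hnp : ∀ p : ℕ, p.Prime → ∀ l, ¬ (p : ℤ) ∣ (np p : ℤ) + ((t l : ℤ) - t i))
    {r : ℕ} (hr : 1 ≤ r) (A p0 : ℕ) (δ s u : ℝ) (x : ℕ) :
    (gset ((t i : ℤ) - t j) (GT t i j) np r A p0 δ s u x).card ≤ (fset t i j A δ s u x).card + (t i + 1) := by
  classical
  have h1 : gset ((t i : ℤ) - t j) (GT t i j) np r A p0 δ s u x ⊆ (fset t i j A δ s u x).image (fun n => n + t i) ∪ range (t i + 1) := by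
    intro a ha
    unfold gset at ha
    rw [mem_filter, mem_Icc] at ha
    obtain ⟨⟨h1, h2⟩, ⟨h7, h8⟩, h3, ⟨h4, h5⟩, h6, h6'⟩ := ha
    rw [mem_union, mem_image, mem_range]
    by_cases h9 : a ≤ t i
    · exact Or.inr (by omega)
    · left
      refine ⟨a - t i, ?_, by omega⟩
      have e1 : a - t i + t i = a := by omega
      have e2 : ((a : ℤ) - ((t i : ℤ) - t j)).toNat = a - t i + t j := by omega
      unfold fset
      rw [mem_filter, mem_Icc, e1]
      refine ⟨⟨by omega, by omega⟩, h7, ?_, h3, ?_⟩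
      · rw [← e2]
        exact h8
      · intro l hl p hp hd
        have e4 : (a : ℤ) + ((t l : ℤ) - t i) = ((a - t i + t l : ℕ) : ℤ) := by omega
        by_cases hlj : l = j
        · subst hlj
          refine h5 p hp ?_
          have e3 : (a : ℤ) - ((t i : ℤ) - t l) = ((a - t i + t l : ℕ) : ℤ) := by omega
          rw [e3]
          exact_mod_cast hd
        · have hg : (t l : ℤ) - t i ∈ GT t i j := by
            unfold GT
            exact mem_image.2 ⟨l, mem_filter.2 ⟨mem_univ l, hl, hlj⟩, rfl⟩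
          have hd' : (p : ℤ) ∣ (a : ℤ) + ((t l : ℤ) - t i) := by
            rw [e4]
            exact_mod_cast hd
          rcases Nat.lt_or_ge p p0 with hlt | hge
          · exfalso
            refine hnp p hp l ?_
            have h10 := (Nat.modEq_iff_dvd.1 ((h6' p hp hlt).of_dvd (dvd_pow_self p (by omega : r ≠ 0))))
            have h11 : (np p : ℤ) + ((t l : ℤ) - t i) = ((np p : ℤ) - a) + ((a : ℤ) + ((t l : ℤ) - t i)) := by ring
            rw [h11]
            exact dvd_add h10 hd'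
          · exact (h6 _ hg).2 p hp hge hd'
  refine (card_le_card h1).trans ((card_union_le _ _).trans ?_)
  rw [card_range]
  exact Nat.add_le_add_right card_image_le _

/-- the scale: `N ^ (1 + e) ≤ x ≤ N ^ (1 + 2 e)` -/
theorem scale {e : ℝ} (he : 0 < e) : ∀ᶠ x : ℕ in atTop, ∀ N : ℕ, N = ⌊(x : ℝ) ^ (1 / (1 + e))⌋₊ →
    (N : ℝ) ^ (1 + e) ≤ x ∧ (x : ℝ) ≤ (N : ℝ) ^ (1 + 2 * e) := by
  have h1 : Tendsto (fun x : ℕ => (x : ℝ) ^ (1 / (1 + e))) atTop atTop :=
    (tendsto_rpow_atTop (by positivity)).comp tendsto_natCast_atTop_atTop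
  have h2 : Tendsto (fun y : ℝ => y ^ e) atTop atTop := tendsto_rpow_atTop he
  have h3 := (h2.comp (tendsto_atTop_add_const_right _ (-1 : ℝ) h1)).eventually_ge_atTop ((2 : ℝ) ^ (1 + e))
  filter_upwards [h1.eventually_ge_atTop 2, h3, eventually_ge_atTop 1] with x g1 g2 gx N hN
  have hx0 : (0 : ℝ) < x := by exact_mod_cast gx
  set y : ℝ := (x : ℝ) ^ (1 / (1 + e)) with hy
  have hy0 : 0 < y := by linarith
  have hN1 : (N : ℝ) ≤ y := by
    rw [hN]
    exact Nat.floor_le hy0.le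
  have hN2 : y - 1 ≤ N := by
    rw [hN]
    have := Nat.lt_floor_add_one y
    linarith
  have hyx : y ^ (1 + e) = x := by
    rw [hy, ← Real.rpow_mul hx0.le]
    have : 1 / (1 + e) * (1 + e) = 1 := by
      field_simp
    rw [this, Real.rpow_one]
  refine ⟨?_, ?_⟩
  · rw [← hyx]
    exact Real.rpow_le_rpow (Nat.cast_nonneg _) hN1 (by linarith)
  · have hN0 : (0 : ℝ) < N := by linarith
    have h4 : y ≤ 2 * N := by linarith
    have h5 : (2 : ℝ) ^ (1 + e) ≤ (N : ℝ) ^ e := by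
      refine g2.trans ?_
      show (y + -1) ^ e ≤ _
      exact Real.rpow_le_rpow (by linarith) (by linarith) he.le
    calc (x : ℝ) = y ^ (1 + e) := hyx.symm
      _ ≤ (2 * N) ^ (1 + e) := Real.rpow_le_rpow hy0.le h4 (by linarith)
      _ = 2 ^ (1 + e) * (N : ℝ) ^ (1 + e) := Real.mul_rpow (by norm_num) hN0.le
      _ ≤ (N : ℝ) ^ e * (N : ℝ) ^ (1 + e) := mul_le_mul_of_nonneg_right h5 (by positivity)
      _ = (N : ℝ) ^ (1 + 2 * e) := by
        rw [← Real.rpow_add hN0]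
        congr 1
        ring

/-- the scale tends to infinity -/
theorem scale_tendsto {e : ℝ} (he : 0 < e) : Tendsto (fun x : ℕ => ⌊(x : ℝ) ^ (1 / (1 + e))⌋₊) atTop atTop := by
  have h1 : Tendsto (fun x : ℕ => (x : ℝ) ^ (1 / (1 + e))) atTop atTop :=
    (tendsto_rpow_atTop (by positivity)).comp tendsto_natCast_atTop_atTop
  exact tendsto_nat_floor_atTop.comp h1

end Pool.Agent.Lib.TTA
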