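import Pool.Agent.Lib.MP_092512_nt.TT.A.Ex
import Pool.Agent.Lib.MP_7b7e48_nt.TC.FinB

/-!
# TT.A.Hand: theorem TT4 in the form of the hand-in
-/

set_option autoImplicit false

open Finset Filter

namespace Pool.Agent.Lib.TTA

open Pool.Agent.Lib
open Pool.Agent.Lib.MP_45349e_nt.LS (lam)
open ArithmeticFunction (cardFactors)

theorem hand_lam {a : ℕ} {i : ℕ} (hi : i < 2) (h : lam a = (-1) ^ i) : cardFactors a % 2 = i := by
  unfold lam at h
  rcases Nat.even_or_odd (cardFactors a) with he | ho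
  · rw [he.neg_one_pow] at h
    interval_cases i
    · exact Nat.even_iff.1 he
    · norm_num at h
  · rw [ho.neg_one_pow] at h
    interval_cases i
    · norm_num at h
    · exact Nat.odd_iff.1 ho

theorem hand_of {k : ℕ} (h : Fin k → ℕ) (i j : Fin k) (A : ℕ) (ε : ℝ)
    (H : ∃ δ : ℝ, 0 < δ ∧ ∃ x0 : ℕ, ∀ x : ℕ, x0 ≤ x → ∀ s u : ℝ, (s = 1 ∨ s = -1) → (u = 1 ∨ u = -1) →
      (x : ℝ) ^ (1 - ε) ≤ ((fset h i j A δ s u x).card : ℝ)) :
    ∃ C : ℕ, ∃ x₀ : ℕ, ∀ x : ℕ, x₀ ≤ x → ∀ r s : ℕ, r < 2 → s < 2 →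
    (x : ℝ) ^ (1 - ε) ≤ (((Icc 1 x).filter fun n => cardFactors (n + h i) % 2 = r ∧ cardFactors (n + h j) % 2 = s ∧
      (∀ p ∈ (n + h i).primeFactors, Real.log x ^ A < p) ∧
      ∀ l, l ≠ i → (∀ p ∈ (n + h l).primeFactors, (x : ℝ) ^ (1 / (C : ℝ)) < p) ∧ cardFactors (n + h l) < C).card : ℝ) := by
  classical
  obtain ⟨δ, hδ, x0, hx0⟩ := H
  obtain ⟨C, hC⟩ := exists_nat_gt (1 / δ)
  have hC0 : (0 : ℝ) < C := lt_trans (by positivity) hC
  have hCn : 0 < C := by exact_mod_cast hC0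
  refine ⟨2 * C, max x0 (∑ l, h l + 3), fun x hx r s hr hs => ?_⟩
  have hx1 : x0 ≤ x := (le_max_left _ _).trans hx
  have hx2 : ∑ l, h l + 3 ≤ x := (le_max_right _ _).trans hx
  have hb : ∀ l, h l ≤ ∑ l, h l := fun l => single_le_sum (fun _ _ => Nat.zero_le _) (mem_univ l)
  have hxr : (1 : ℝ) ≤ x := by exact_mod_cast (by omega : 1 ≤ x)
  have hpm : ∀ i : ℕ, i < 2 → ((-1 : ℝ) ^ i = 1 ∨ (-1 : ℝ) ^ i = -1) := by
    intro i hi
    interval_cases i
    · left; norm_num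
    · right; norm_num
  refine (hx0 x hx1 ((-1) ^ r) ((-1) ^ s) (hpm r hr) (hpm s hs)).trans ?_
  have h3 : fset h i j A δ ((-1) ^ r) ((-1) ^ s) x ⊆ (Icc 1 x).filter fun n => cardFactors (n + h i) % 2 = r ∧ cardFactors (n + h j) % 2 = s ∧
      (∀ p ∈ (n + h i).primeFactors, Real.log x ^ A < p) ∧
      ∀ l, l ≠ i → (∀ p ∈ (n + h l).primeFactors, (x : ℝ) ^ (1 / ((2 * C : ℕ) : ℝ)) < p) ∧ cardFactors (n + h l) < 2 * C := by
    intro a ha
    unfold fset at ha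
    rw [mem_filter, mem_Icc] at ha
    obtain ⟨⟨ha1, ha2⟩, hl, hl', hp, hq⟩ := ha
    rw [mem_filter, mem_Icc]
    refine ⟨⟨ha1, ha2⟩, hand_lam hr hl, hand_lam hs hl',
      fun p hpp => hp p (Nat.prime_of_mem_primeFactors hpp) (Nat.dvd_of_mem_primeFactors hpp), fun l hli => ?_⟩
    have hq' : ∀ p ∈ (a + h l).primeFactors, (x : ℝ) ^ (1 / (C : ℝ)) < p := by
      intro p hpp
      refine lt_of_le_of_lt ?_ (hq l hli p (Nat.prime_of_mem_primeFactors hpp) (Nat.dvd_of_mem_primeFactors hpp))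
      refine Real.rpow_le_rpow_of_exponent_le hxr ?_
      rw [div_le_iff₀ hC0]
      rw [div_lt_iff₀ hδ] at hC
      linarith
    refine ⟨fun p hpp => lt_of_le_of_lt ?_ (hq' p hpp), ?_⟩
    · refine Real.rpow_le_rpow_of_exponent_le hxr ?_
      refine one_div_le_one_div_of_le hC0 ?_
      push_cast
      linarith
    · refine TC.finb_Omega (N := x ^ 2) (by omega) ?_ (by omega) fun p hpp => lt_of_le_of_lt (le_of_eq ?_) (hq' p hpp)
      · have h5 := hb l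
        nlinarith
      · push_cast
        rw [← Real.rpow_natCast (x : ℝ) 2, ← Real.rpow_mul (by linarith)]
        congr 1
        push_cast
        field_simp
  exact_mod_cast card_le_card h3

end Pool.Agent.Lib.TTA
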