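import Pool.Agent.Lib.MP_092512_nt.TT.A.Ex

/-!
# TT.A.Sc: from the scale `N` to `x`

If for all large `N` the exceptional set of the pair part is not small, then theorem TT4 holds.
-/

set_option autoImplicit false

open Finset Filter

namespace Pool.Agent.Lib.TTA

open Pool.Agent.Lib
open Pool.Agent.Lib.TTS (EXs)

theorem of_scale (h : ℤ) (G : Finset ℤ) (np : ℕ → ℕ) (r p0 : ℕ) (A : ℕ) (ε δz e : ℝ) (he : 0 < e) (he1 : 8 * e ≤ ε) (hε1 : ε ≤ 1)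
    (hδz : 0 < δz) (T : ℕ → TTC.Dat) (M : ℕ → ℕ)
    (hT : ∀ N, (T N).h = h ∧ (T N).G = G ∧ (T N).y = ⌊(Real.log N) ^ (A + 1)⌋₊ ∧ (T N).z = ⌊(N : ℝ) ^ δz⌋₊ ∧ (T N).np = np ∧ (T N).r = r ∧ (T N).p0 = p0)
    (hM : ∀ N : ℕ, (M N : ℝ) ≤ (N : ℝ) ^ (1 + e))
    (H : ∀ᶠ N : ℕ in atTop, ∀ s u : ℝ, (s = 1 ∨ s = -1) → (u = 1 ∨ u = -1) →
      ((EXs (T N) (PtT h s u) (M N)).card : ℝ) ≤ (N : ℝ) ^ (1 - ε / 2) → False) :
    ∃ δ : ℝ, 0 < δ ∧ ∃ x0 : ℕ, ∀ x : ℕ, x0 ≤ x → ∀ s u : ℝ, (s = 1 ∨ s = -1) → (u = 1 ∨ u = -1) →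
      (x : ℝ) ^ (1 - ε) ≤ ((gset h G np r A p0 δ s u x).card : ℝ) := by
  classical
  have hε : 0 < ε := by linarith
  have hlog : Tendsto (fun N : ℕ => Real.log (N : ℝ)) atTop atTop := Real.tendsto_log_atTop.comp tendsto_natCast_atTop_atTop
  have hp1 : Tendsto (fun N : ℕ => (N : ℝ) ^ (ε / 4)) atTop atTop := (tendsto_rpow_atTop (by positivity)).comp tendsto_natCast_atTop_atTop
  have hN : ∀ᶠ N : ℕ in atTop, (∀ s u : ℝ, (s = 1 ∨ s = -1) → (u = 1 ∨ u = -1) →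
      ((EXs (T N) (PtT h s u) (M N)).card : ℝ) ≤ (N : ℝ) ^ (1 - ε / 2) → False) ∧ 1 ≤ N ∧
      (2 : ℝ) ^ A ≤ Real.log N ∧ 2 ≤ (N : ℝ) ^ (ε / 4) := by
    filter_upwards [H, eventually_ge_atTop 1, hlog.eventually_ge_atTop ((2 : ℝ) ^ A), hp1.eventually_ge_atTop 2] with N h1 h2 h3 h4
    exact ⟨h1, h2, h3, h4⟩
  have hev := (scale_tendsto he).eventually hN
  obtain ⟨x0, hx0⟩ := eventually_atTop.1 (hev.and (scale he))
  refine ⟨δz / 2, by positivity, x0, fun x hx s u hs hu => ?_⟩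
  obtain ⟨⟨h1, h2, h3, h4⟩, h6⟩ := hx0 x hx
  obtain ⟨N, hNd⟩ : ∃ N : ℕ, N = ⌊(x : ℝ) ^ (1 / (1 + e))⌋₊ := ⟨_, rfl⟩
  rw [← hNd] at h1 h2 h3 h4
  obtain ⟨h7, h8⟩ := h6 N hNd
  by_contra hcon
  rw [not_le] at hcon
  have hNr : (1 : ℝ) ≤ N := by exact_mod_cast h2
  have hN0 : (0 : ℝ) < N := by linarith
  have hx0' : (0 : ℝ) < x := lt_of_lt_of_le (Real.rpow_pos_of_pos hN0 _) h7
  obtain ⟨t1, t2, t3, t4, t5, t5', t6⟩ := hT N
  refine h1 s u hs hu ?_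
  have hMx : M N ≤ x := by exact_mod_cast (hM N).trans h7
  have hK0 : 0 < Real.log N := lt_of_lt_of_le (by positivity) h3
  have hlx : Real.log x ≤ 2 * Real.log N := by
    calc Real.log x ≤ Real.log ((N : ℝ) ^ (1 + 2 * e)) := Real.log_le_log hx0' h8
      _ = (1 + 2 * e) * Real.log N := Real.log_rpow hN0 _
      _ ≤ 2 * Real.log N := mul_le_mul_of_nonneg_right (by linarith) hK0.le
  have hx1 : (1 : ℝ) ≤ x := le_trans (Real.one_le_rpow hNr (by linarith)) h7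
  have hcard := exs_card h G np r p0 (T N) t1 t2 t5 t5' t6 A (δz / 2) s u x (M N) hMx ?_ ?_
  · have e1 : ((EXs (T N) (PtT h s u) (M N)).card : ℝ) ≤ (gset h G np r A p0 (δz / 2) s u x).card := by
      exact_mod_cast hcard
    have e2 : (x : ℝ) ^ (1 - ε) ≤ (N : ℝ) ^ (1 - 3 * ε / 4) := by
      calc (x : ℝ) ^ (1 - ε) ≤ ((N : ℝ) ^ (1 + 2 * e)) ^ (1 - ε) := Real.rpow_le_rpow hx0'.le h8 (by linarith)
        _ = (N : ℝ) ^ ((1 + 2 * e) * (1 - ε)) := (Real.rpow_mul hN0.le _ _).symm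
        _ ≤ (N : ℝ) ^ (1 - 3 * ε / 4) := by
          refine Real.rpow_le_rpow_of_exponent_le hNr ?_
          nlinarith
    have e4 : (N : ℝ) ^ (1 - ε / 2) = (N : ℝ) ^ (ε / 4) * (N : ℝ) ^ (1 - 3 * ε / 4) := by
      rw [← Real.rpow_add hN0]
      congr 1
      ring
    have e5 : 0 < (N : ℝ) ^ (1 - 3 * ε / 4) := Real.rpow_pos_of_pos hN0 _
    rw [e4]
    nlinarith
  · intro p hp
    rw [t3] at hp
    have e1 : (Real.log N) ^ (A + 1) < p := (Nat.floor_lt (by positivity)).1 hp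
    refine lt_of_le_of_lt ?_ e1
    calc (Real.log x) ^ A ≤ (2 * Real.log N) ^ A := pow_le_pow_left₀ (Real.log_nonneg hx1) hlx A
      _ = 2 ^ A * (Real.log N) ^ A := mul_pow _ _ _
      _ ≤ Real.log N * (Real.log N) ^ A := mul_le_mul_of_nonneg_right h3 (by positivity)
      _ = (Real.log N) ^ (A + 1) := (pow_succ' _ _).symm
  · intro p hp
    rw [t4] at hp
    have e1 : (N : ℝ) ^ δz < p := (Nat.floor_lt (by positivity)).1 hp
    refine lt_of_le_of_lt ?_ e1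
    calc (x : ℝ) ^ (δz / 2) ≤ ((N : ℝ) ^ (1 + 2 * e)) ^ (δz / 2) := Real.rpow_le_rpow hx0'.le h8 (by linarith)
      _ = (N : ℝ) ^ ((1 + 2 * e) * (δz / 2)) := (Real.rpow_mul hN0.le _ _).symm
      _ ≤ (N : ℝ) ^ δz := by
          refine Real.rpow_le_rpow_of_exponent_le hNr ?_
          nlinarith

end Pool.Agent.Lib.TTA
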